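import Pool.Graph.R_seed8.TH288.NB.Neg4

set_option autoImplicit false

open MeasureTheory Set Filter Topology
open scoped ENNReal

namespace Pool.Agent.Results.MP_d5621e_an.AnalyticHard

open Pool.Agent.H534R3.NonBorel Pool.Agent.TH288.NB

/-- The source alphabet, with sixteen letters. -/
abbrev Alph : Type := Fin 4 × Fin 2 × Fin 2

/-- The shift-invariant probability measures on `Alph ^ ℤ` that finitarily factor onto the
i.i.d. fair coin process. -/
def Factoring : Set (ProbabilityMeasure (ℤ → Alph)) :=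
  {μ | Measure.map (fun x : ℤ → Alph => fun i => x (i + 1)) (μ : Measure (ℤ → Alph)) = μ ∧
    ∃ φ : (ℤ → Alph) → (ℤ → Fin 2), Measurable φ ∧
      (∀ (s : Finset ℤ) (w : ℤ → Fin 2),
        Measure.map φ (μ : Measure (ℤ → Alph)) {z | ∀ i ∈ s, z i = w i} = (1 / 2) ^ s.card) ∧
      ∃ X₀ : Set (ℤ → Alph), (μ : Measure (ℤ → Alph)) X₀ᶜ = 0 ∧
        (∀ x ∈ X₀, φ (fun i => x (i + 1)) = fun i => φ x (i + 1)) ∧
        ∀ x ∈ X₀, ∃ n : ℕ, ∀ y ∈ X₀,
          (∀ i : ℤ, |i| ≤ (n : ℤ) → y i = x i) → φ y 0 = φ x 0}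

theorem unif_singleton (b : Bt) : unif Bt {b} = 1 / 2 := by
  rw [unif, Measure.smul_apply, Measure.count_singleton, smul_eq_mul, mul_one, one_div]
  simp

theorem mem_factoring (μ : ProbabilityMeasure (ℤ → Alph)) :
    μ ∈ Factoring ↔ Fac (μ : Measure (ℤ → A)) := by
  have e : ∀ (s : Finset ℤ) (w : ℤ → Bt), ∏ i ∈ s, (unif Bt) {w i} = (1 / 2) ^ s.card :=
    fun s w => by simp only [unif_singleton, Finset.prod_const]
  unfold Factoring Fac
  simp only [e]
  exact Iff.rfl

theorem muP_iff (t : List ℕ → Bool) :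
    muP t ∈ Factoring ↔ ∃ f : ℕ → ℕ, ∀ n, t (br f n) = true := by
  rw [mem_factoring]
  constructor
  · intro h
    by_contra hn
    exact not_fac t hn h
  · rintro ⟨f, hf⟩
    exact fac_of_branch t f hf

theorem continuous_tree (c : List ℕ → List ℕ → Prop) [∀ s u, Decidable (c s u)] :
    Continuous fun (y : ℕ → ℕ) (u : List ℕ) => decide (c (br y u.length) u) := by
  refine continuous_pi fun u => continuous_iff_continuousAt.2 fun y => ?_
  have h : ∀ᶠ z in 𝓝 y, ∀ i ∈ Finset.range u.length, z i = y i :=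
    (Filter.eventually_all_finset _).2 fun i _ =>
      (continuous_apply i).continuousAt.eventually ((isOpen_discrete {y i}).mem_nhds rfl)
  refine tendsto_const_nhds.congr' (h.mono fun z hz => ?_)
  show decide (c (br y u.length) u) = decide (c (br z u.length) u)
  rw [(br_eq_iff z y u.length).2 fun i hi => hz i (Finset.mem_range.2 hi)]

theorem hard (P : Set (ℕ → ℕ)) (hP : AnalyticSet P) :
    ∃ F : (ℕ → ℕ) → ProbabilityMeasure (ℤ → Alph), Continuous F ∧ P = F ⁻¹' Factoring := by
  classical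
  obtain ⟨c, hc⟩ := exists_code P hP
  refine ⟨fun y => muP fun u => decide (c (br y u.length) u),
    continuous_muP.comp (continuous_tree c), ?_⟩
  rw [hc]
  ext y
  rw [mem_preimage, muP_iff]
  simp only [length_br, decide_eq_true_eq]
  rfl

theorem polish_bool {ι : Type} [Countable ι] : PolishSpace (ι → Bool) := by
  have : CompactSpace (ι → Bool) := inferInstance
  have : SecondCountableTopology (ι → Bool) := inferInstance
  have : TopologicalSpace.IsCompletelyMetrizableSpace (ι → Bool) := inferInstance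
  constructor

/-- The set of trees without an infinite branch is not analytic. -/
theorem wellFounded_not_analytic :
    ¬ AnalyticSet {t : List ℕ → Bool | ¬ ∃ f : ℕ → ℕ, ∀ n, t (br f n) = true} := by
  classical
  intro hA
  obtain ⟨enc, henc⟩ : ∃ enc : List ℕ × List ℕ → ℕ, enc = Encodable.encode := ⟨_, rfl⟩
  obtain ⟨t, ht0⟩ : ∃ t : (ℕ → ℕ) → List ℕ → Bool,
      ∀ z u, t z u = decide (z (enc (br z u.length, u)) = 0) := ⟨_, fun _ _ => rfl⟩
  have ht : Continuous t := by
    refine continuous_pi fun u => continuous_iff_continuousAt.2 fun y => ?_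
    have h1 : ∀ᶠ z in 𝓝 y, ∀ i ∈ Finset.range u.length, z i = y i :=
      (Filter.eventually_all_finset _).2 fun i _ =>
        (continuous_apply i).continuousAt.eventually ((isOpen_discrete {y i}).mem_nhds rfl)
    have h2 : ∀ᶠ z in 𝓝 y, z (enc (br y u.length, u)) = y (enc (br y u.length, u)) :=
      (continuous_apply (enc (br y u.length, u))).continuousAt.eventually
        ((isOpen_discrete {y (enc (br y u.length, u))}).mem_nhds rfl)
    refine tendsto_const_nhds.congr' ((h1.and h2).mono fun z hz => ?_)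
    show t y u = t z u
    rw [ht0, ht0, (br_eq_iff z y u.length).2 fun i hi => hz.1 i (Finset.mem_range.2 hi), hz.2]
  obtain ⟨c, hc⟩ := exists_code _ (hA.preimage ht)
  obtain ⟨z₀, hz₀⟩ : ∃ z₀ : ℕ → ℕ, ∀ s u, z₀ (enc (s, u)) = 0 ↔ c s u := by
    refine ⟨fun n => match (Encodable.decode n : Option (List ℕ × List ℕ)) with
      | some (s, u) => if c s u then 0 else 1
      | none => 0, fun s u => ?_⟩
    simp only [henc, Encodable.encodek]
    split_ifs with h <;> simp [h]
  have h1 : ∀ f : ℕ → ℕ, (∀ n, t z₀ (br f n) = true) ↔ ∀ n, c (br z₀ n) (br f n) := by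
    intro f
    refine forall_congr' fun n => ?_
    rw [ht0, decide_eq_true_eq, length_br]
    exact hz₀ _ _
  have h2 : z₀ ∈ proj c ↔ ∃ f : ℕ → ℕ, ∀ n, t z₀ (br f n) = true :=
    ⟨fun ⟨f, hf⟩ => ⟨f, (h1 f).2 hf⟩, fun ⟨f, hf⟩ => ⟨f, (h1 f).1 hf⟩⟩
  have h3 : z₀ ∈ proj c ↔ ¬ ∃ f : ℕ → ℕ, ∀ n, t z₀ (br f n) = true := by
    rw [← hc]; rfl
  by_cases h4 : z₀ ∈ proj c
  · exact h3.1 h4 (h2.1 h4)
  · exact h4 (h3.2 fun h5 => h4 (h2.2 h5))

/-- The set of measures that finitarily factor onto the fair coin process is hard for analytic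
sets: every analytic subset of the Baire space is its preimage under a continuous map. In
particular its complement is not analytic, so it is not Borel. -/
theorem result :
    (∀ P : Set (ℕ → ℕ), AnalyticSet P →
      ∃ F : (ℕ → ℕ) → ProbabilityMeasure (ℤ → Alph), Continuous F ∧ P = F ⁻¹' Factoring) ∧
    ¬ AnalyticSet Factoringᶜ := by
  refine ⟨hard, fun h => wellFounded_not_analytic ?_⟩
  have : PolishSpace (List ℕ → Bool) := polish_bool
  have : T2Space (ProbabilityMeasure (ℤ → Alph)) := by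
    let _ := TopologicalSpace.metrizableSpaceMetric (ℤ → Alph)
    infer_instance
  have h1 := h.preimage continuous_muP
  have e : {t : List ℕ → Bool | ¬ ∃ f : ℕ → ℕ, ∀ n, t (br f n) = true} =
      muP ⁻¹' Factoringᶜ := by
    ext t
    rw [mem_preimage, mem_compl_iff, muP_iff]
    rfl
  rw [e]
  exact h1

end Pool.Agent.Results.MP_d5621e_an.AnalyticHard
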